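import Pool.Agent.CG.L.Core

/-!
# CG, part L: (S1), the sup bound by point picking
-/

set_option autoImplicit false

namespace Pool.Agent.CG.L

open MeasureTheory Set Filter Topology
open scoped ContDiff ENNReal

variable {N m : ℕ}

theorem gg_zero (W : ℝ → ℝ) : gg W 0 = 0 := by
  unfold gg
  ring

theorem gg_nonneg {a b : ℝ} {W : ℝ → ℝ} (hW : Wt a b W) {t : ℝ} (ht : 0 ≤ t) : 0 ≤ gg W t := by
  rcases ht.eq_or_lt with h | h
  · rw [← h, gg_zero]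
  · unfold gg
    exact mul_nonneg (sq_nonneg t) (hW.pos t h).le

theorem gg_pos {a b : ℝ} {W : ℝ → ℝ} (hW : Wt a b W) {t : ℝ} (ht : 0 < t) : 0 < gg W t := by
  unfold gg
  exact mul_pos (pow_pos ht 2) (hW.pos t ht)

theorem gg_monotone {a b : ℝ} (ha : a < 1) {W : ℝ → ℝ} (hW : Wt a b W) {s t : ℝ} (hs : 0 ≤ s)
    (hst : s ≤ t) : gg W s ≤ gg W t := by
  rcases hs.eq_or_lt with h | h
  · rw [← h, gg_zero]
    exact gg_nonneg hW (hs.trans hst)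
  · have h1 := gg_mono ha hW h hst
    have h2 : (1 : ℝ) ≤ (t / s) ^ (2 - a) :=
      Real.one_le_rpow ((one_le_div h).2 hst) (by linarith)
    have h3 := gg_nonneg hW hs
    nlinarith

theorem gg_intOn {G : Carnot N m} {a b : ℝ} (ha : a < 1) {W : ℝ → ℝ} (hW : Wt a b W) {x : Pt N} {r : ℝ}
    {F : Pt N → Hv m} (hF : ContinuousOn F (G.B x r)) {M : ℝ} (h1 : ∀ y ∈ G.B x r, ‖F y‖ ≤ M) :
    IntegrableOn (fun y => gg W ‖F y‖) (G.B x r) := by
  have hfin : IsFiniteMeasure (volume.restrict (G.B x r)) :=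
    ⟨by rw [Measure.restrict_apply_univ]; exact G.vol_B_lt_top x r⟩
  have hmono : Monotone (fun t : ℝ => gg W (max t 0)) := fun s t hst =>
    gg_monotone ha hW (le_max_right _ _) (max_le_max hst le_rfl)
  have e : (fun y => gg W ‖F y‖) = fun y => (fun t : ℝ => gg W (max t 0)) ‖F y‖ := by
    funext y
    simp only
    rw [max_eq_left (norm_nonneg _)]
  have hm : AEStronglyMeasurable (fun y => gg W ‖F y‖) (volume.restrict (G.B x r)) := by
    rw [e]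
    exact (hmono.measurable.comp_aemeasurable
      ((hF.aestronglyMeasurable (meas_B G x r)).norm.aemeasurable)).aestronglyMeasurable
  refine Integrable.of_bound hm (gg W (max M 0)) ?_
  refine (ae_restrict_iff' (meas_B G x r)).2 (Eventually.of_forall fun y hy => ?_)
  rw [Real.norm_of_nonneg (gg_nonneg hW (norm_nonneg _))]
  exact gg_monotone ha hW (norm_nonneg _) ((h1 y hy).trans (le_max_left _ _))

/-- elementary interpolation -/
theorem sq_le_add {τ s b : ℝ} (hτ : 0 < τ) (hs : 0 ≤ s) (hb : 0 ≤ b) :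
    s ^ 2 ≤ τ ^ 2 + τ ^ (-b) * s ^ (2 + b) := by
  have h0 : 0 ≤ τ ^ (-b) * s ^ (2 + b) :=
    mul_nonneg (Real.rpow_nonneg hτ.le _) (Real.rpow_nonneg hs _)
  by_cases h : s ≤ τ
  · have := pow_le_pow_left₀ hs h 2
    linarith
  · push Not at h
    have hs' : 0 < s := hτ.trans h
    have h1 : s ^ (2 + b) = s ^ 2 * s ^ b := by
      rw [Real.rpow_add hs', Real.rpow_two]
    have h2 : τ ^ b ≤ s ^ b := Real.rpow_le_rpow hτ.le h.le hb
    have h3 : τ ^ (-b) * τ ^ b = 1 := by rw [← Real.rpow_add hτ]; simp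
    have h4 : s ^ 2 ≤ τ ^ (-b) * s ^ (2 + b) := by
      rw [h1]
      calc s ^ 2 = s ^ 2 * (τ ^ (-b) * τ ^ b) := by rw [h3, mul_one]
        _ ≤ s ^ 2 * (τ ^ (-b) * s ^ b) := by
            refine mul_le_mul_of_nonneg_left ?_ (by positivity)
            exact mul_le_mul_of_nonneg_left h2 (Real.rpow_nonneg hτ.le _)
        _ = τ ^ (-b) * (s ^ 2 * s ^ b) := by ring
    have := sq_nonneg τ
    linarith

theorem local_sup (G : Carnot N m) {a b L : ℝ} (ha0 : 0 ≤ a) (ha : a < 1) (hb : 0 ≤ b) (hL : 1 ≤ L) :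
    ∃ e2 : ℝ, 0 < e2 ∧ ∀ (W : ℝ → ℝ) (A : Hv m → Hv m), Wt a b W → AA W L A →
    ∀ (y : Pt N) (ρ : ℝ), 0 < ρ → ∀ (u : Pt N → ℝ) (F : Pt N → Hv m), Sol G 2 (G.B y ρ) A u F →
    ContinuousOn F (G.B y ρ) → F y ≠ 0 →
    (∀ z ∈ G.B y ρ, gg W ‖F z‖ ≤ 2 ^ (G.Q + 1) * gg W ‖F y‖) →
    e2 * gg W ‖F y‖ ≤ av G y ρ (fun z => gg W ‖F z‖) := by
  have hc0 : (0 : ℝ) < (1 / 2) ^ (G.Q + 1) := by positivity
  obtain ⟨ε, hε, hcore⟩ := core G ha0 ha hb hL hc0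
  set τ : ℝ := Real.sqrt (ε / 2) with hτdef
  have hτ : 0 < τ := Real.sqrt_pos.2 (by positivity)
  have hτ2 : τ ^ 2 = ε / 2 := Real.sq_sqrt (by positivity)
  refine ⟨ε / 2 * τ ^ b, by positivity, ?_⟩
  intro W A hW hA y ρ hρ u F hS hFc hFy hg
  have hny : 0 < ‖F y‖ := norm_pos_iff.2 hFy
  set M : ℝ := ‖F y‖ * 2 ^ (G.Q + 1) with hM
  have hMp : 0 < M := by positivity
  have h2Q : (1 : ℝ) ≤ 2 ^ (G.Q + 1) := one_le_pow₀ (by norm_num)
  have hyM : ‖F y‖ ≤ M := by rw [hM]; nlinarith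
  -- the bound of `F` by `M`
  have hFM : ∀ z ∈ G.B y ρ, ‖F z‖ ≤ M := by
    intro z hz
    by_contra hcon
    push Not at hcon
    have h1 := gg_mono ha hW hny (hyM.trans hcon.le)
    have h2 := hg z hz
    have h3 : (2 : ℝ) ^ (G.Q + 1) < ‖F z‖ / ‖F y‖ := by
      rw [lt_div_iff₀ hny, mul_comm]
      exact hcon
    have h4 : ‖F z‖ / ‖F y‖ ≤ (‖F z‖ / ‖F y‖) ^ (2 - a) := by
      have h5 : (1 : ℝ) ≤ ‖F z‖ / ‖F y‖ := h2Q.trans h3.le
      calc ‖F z‖ / ‖F y‖ = (‖F z‖ / ‖F y‖) ^ (1 : ℝ) := (Real.rpow_one _).symm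
        _ ≤ _ := Real.rpow_le_rpow_of_exponent_le h5 (by linarith)
    have h6 := gg_pos hW hny
    have h7 : (‖F z‖ / ‖F y‖) ^ (2 - a) ≤ 2 ^ (G.Q + 1) := by
      by_contra hc
      push Not at hc
      nlinarith
    linarith
  have hA' := nrm_slope_W hW hA hMp
  have hS' := sol_slope hS hMp (M * W M)⁻¹
  have hFc' : ContinuousOn (fun z => M⁻¹ • F z) (G.B y ρ) := hFc.const_smul M⁻¹
  have hF1 : ∀ z ∈ G.B y ρ, ‖M⁻¹ • F z‖ ≤ 1 := by
    intro z hz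
    rw [norm_smul, Real.norm_of_nonneg (inv_nonneg.2 hMp.le), inv_mul_le_iff₀ hMp, mul_one]
    exact hFM z hz
  have hFy1 : (1 / 2 : ℝ) ^ (G.Q + 1) ≤ ‖M⁻¹ • F y‖ := by
    rw [norm_smul, Real.norm_of_nonneg (inv_nonneg.2 hMp.le), hM, one_div, inv_pow]
    field_simp
    rfl
  have h1 := hcore _ hA' y ρ hρ _ _ hS' hFc' hF1 hFy1
  have hggM := gg_pos hW hMp
  have hint := gg_intOn ha hW hFc hFM
  have h2 : av G y ρ (fun z => ‖M⁻¹ • F z‖ ^ 2) ≤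
      av G y ρ (fun z => ε / 2 + (τ ^ (-b) / gg W M) * gg W ‖F z‖) := by
    refine av_mono G (intOn_norm_sq hFc' hF1) ?_ ?_
    · exact (intOn_const G y ρ _).add (hint.const_mul _)
    · intro z hz
      have h3 := sq_le_add hτ (norm_nonneg (M⁻¹ • F z)) hb
      rw [hτ2] at h3
      refine h3.trans ?_
      refine add_le_add le_rfl ?_
      have h4 : ‖M⁻¹ • F z‖ ^ (2 + b) ≤ gg W ‖F z‖ / gg W M := by
        rcases (norm_nonneg (F z)).eq_or_lt with h5 | h5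
        · rw [norm_smul, ← h5, mul_zero, Real.zero_rpow (by linarith), gg_zero, zero_div]
        · have h6 := gg_le hW h5 (hFM z hz)
          rw [le_div_iff₀ hggM]
          have h7 : ‖M⁻¹ • F z‖ ^ (2 + b) * (M / ‖F z‖) ^ (2 + b) = 1 := by
            rw [← Real.mul_rpow (norm_nonneg _) (div_nonneg hMp.le h5.le), norm_smul,
              Real.norm_of_nonneg (inv_nonneg.2 hMp.le)]
            have : M⁻¹ * ‖F z‖ * (M / ‖F z‖) = 1 := by field_simp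
            rw [this, Real.one_rpow]
          calc ‖M⁻¹ • F z‖ ^ (2 + b) * gg W M
              ≤ ‖M⁻¹ • F z‖ ^ (2 + b) * ((M / ‖F z‖) ^ (2 + b) * gg W ‖F z‖) :=
                mul_le_mul_of_nonneg_left h6 (Real.rpow_nonneg (norm_nonneg _) _)
            _ = gg W ‖F z‖ := by rw [← mul_assoc, h7, one_mul]
      calc τ ^ (-b) * ‖M⁻¹ • F z‖ ^ (2 + b) ≤ τ ^ (-b) * (gg W ‖F z‖ / gg W M) :=
            mul_le_mul_of_nonneg_left h4 (Real.rpow_nonneg hτ.le _)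
        _ = τ ^ (-b) / gg W M * gg W ‖F z‖ := by ring
  rw [av_add G (intOn_const G y ρ _) (hint.const_mul _), av_mul, av_const G y hρ] at h2
  have h5 : ε / 2 ≤ τ ^ (-b) / gg W M * av G y ρ (fun z => gg W ‖F z‖) := by linarith
  have h6 : gg W ‖F y‖ ≤ gg W M := gg_monotone ha hW hny.le hyM
  have h7 : τ ^ (-b) * τ ^ b = 1 := by rw [← Real.rpow_add hτ]; simp
  have h8 : 0 < τ ^ b := Real.rpow_pos_of_pos hτ b
  calc ε / 2 * τ ^ b * gg W ‖F y‖ ≤ ε / 2 * τ ^ b * gg W M :=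
        mul_le_mul_of_nonneg_left h6 (by positivity)
    _ ≤ (τ ^ (-b) / gg W M * av G y ρ (fun z => gg W ‖F z‖)) * τ ^ b * gg W M := by
        refine mul_le_mul_of_nonneg_right ?_ hggM.le
        exact mul_le_mul_of_nonneg_right h5 h8.le
    _ = (τ ^ (-b) * τ ^ b) * av G y ρ (fun z => gg W ‖F z‖) := by field_simp
    _ = av G y ρ (fun z => gg W ‖F z‖) := by rw [h7, one_mul]

/-- (S1) the sup bound for the energy density. -/
theorem supB (G : Carnot N m) {a b L : ℝ} (ha0 : 0 ≤ a) (ha : a < 1) (hb : 0 ≤ b) (hL : 1 ≤ L) :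
    ∃ C : ℝ, 0 < C ∧ ∀ (W : ℝ → ℝ) (A : Hv m → Hv m), Wt a b W → AA W L A →
    ∀ (x : Pt N) (R : ℝ), 0 < R → ∀ (u : Pt N → ℝ) (F : Pt N → Hv m), Sol G 2 (G.B x R) A u F →
    ContinuousOn F (G.B x R) → (∃ M : ℝ, ∀ y ∈ G.B x R, ‖F y‖ ≤ M) →
    ∀ y ∈ G.B x (R / 2), gg W ‖F y‖ ≤ C * av G x R (fun z => gg W ‖F z‖) := by
  obtain ⟨e2, he2, hloc⟩ := local_sup G ha0 ha hb hL
  refine ⟨2 ^ (2 * G.Q + 1) / e2, by positivity, ?_⟩
  intro W A hW hA x R hR u F hS hFc hM y hy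
  obtain ⟨M, hM⟩ := hM
  have hav0 : 0 ≤ av G x R (fun z => gg W ‖F z‖) :=
    av_nonneg G fun z _ => gg_nonneg hW (norm_nonneg _)
  have hg0 : ∀ z, 0 ≤ gg W ‖F z‖ := fun z => gg_nonneg hW (norm_nonneg _)
  rcases (hg0 y).eq_or_lt with h0 | h0
  · rw [← h0]
    positivity
  have hyR : y ∈ G.B x R := B_mono G (by linarith) hy
  set Φ : Pt N → ℝ := fun z => gg W ‖F z‖ * (R - G.di x z) ^ G.Q with hΦ
  have hRd : ∀ z ∈ G.B x R, 0 < R - G.di x z := by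
    intro z hz
    have := (G.mem_B).1 hz
    linarith
  have hbdd : BddAbove (Φ '' G.B x R) := by
    refine ⟨gg W (max M 0) * R ^ G.Q, ?_⟩
    rintro _ ⟨z, hz, rfl⟩
    have h1 : gg W ‖F z‖ ≤ gg W (max M 0) :=
      gg_monotone ha hW (norm_nonneg _) ((hM z hz).trans (le_max_left _ _))
    have h2 : (R - G.di x z) ^ G.Q ≤ R ^ G.Q :=
      pow_le_pow_left₀ (hRd z hz).le (by linarith [G.di_nonneg x z]) _
    exact mul_le_mul h1 h2 (pow_nonneg (hRd z hz).le _) (gg_nonneg hW (le_max_right _ _))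
  set S : ℝ := sSup (Φ '' G.B x R) with hSdef
  have hleS : ∀ z ∈ G.B x R, Φ z ≤ S := fun z hz => le_csSup hbdd (mem_image_of_mem _ hz)
  have hΦy : 0 < Φ y := mul_pos h0 (pow_pos (hRd y hyR) _)
  have hSp : 0 < S := hΦy.trans_le (hleS y hyR)
  obtain ⟨_, ⟨y1, hy1, rfl⟩, hy1S⟩ :=
    exists_lt_of_lt_csSup (Set.Nonempty.image Φ ⟨y, hyR⟩) (show S / 2 < S by linarith)
  set d : ℝ := R - G.di x y1 with hd
  have hdp : 0 < d := hRd y1 hy1
  have hρ : 0 < d / 2 := half_pos hdp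
  have hsub : G.B y1 (d / 2) ⊆ G.B x R := B_sub G (by rw [hd]; linarith [G.di_nonneg x y1, hdp])
  have hg1 : 0 < gg W ‖F y1‖ := by
    have h1 : 0 < Φ y1 := by linarith
    have h2 : 0 < d ^ G.Q := pow_pos hdp _
    exact pos_of_mul_pos_left h1 h2.le
  have hF1 : F y1 ≠ 0 := by
    intro h
    rw [h, norm_zero, gg_zero] at hg1
    exact lt_irrefl _ hg1
  have hgz : ∀ z ∈ G.B y1 (d / 2), gg W ‖F z‖ ≤ 2 ^ (G.Q + 1) * gg W ‖F y1‖ := by
    intro z hz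
    have h1 : d / 2 ≤ R - G.di x z := by
      have h2 := (G.mem_B).1 hz
      have h3 := G.di_triangle x y1 z
      rw [hd] at h2 ⊢
      linarith
    have h4 : gg W ‖F z‖ * (d / 2) ^ G.Q ≤ Φ z :=
      mul_le_mul_of_nonneg_left (pow_le_pow_left₀ hρ.le h1 _) (hg0 z)
    have h5 := hleS z (hsub hz)
    have h6 : gg W ‖F z‖ * (d / 2) ^ G.Q ≤ (2 ^ (G.Q + 1) * gg W ‖F y1‖) * (d / 2) ^ G.Q := by
      have h7 : (2 ^ (G.Q + 1) * gg W ‖F y1‖) * (d / 2) ^ G.Q = 2 * Φ y1 := by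
        rw [hΦ, pow_succ, div_pow]
        simp only
        rw [← hd]
        field_simp
      rw [h7]
      linarith
    exact le_of_mul_le_mul_right h6 (pow_pos hρ _)
  have h1 := hloc W A hW hA y1 (d / 2) hρ u F (sol_mono hS hsub) (hFc.mono hsub) hF1 hgz
  have h2 := av_ball_le G hρ hR hsub (gg_intOn ha hW hFc hM) (fun z _ => hg0 z)
  have h3 : e2 * (gg W ‖F y1‖ * (d / 2) ^ G.Q) ≤ R ^ G.Q * av G x R (fun z => gg W ‖F z‖) := by
    have h4 := h1.trans h2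
    have h5 : (R / (d / 2)) ^ G.Q * (d / 2) ^ G.Q = R ^ G.Q := by
      rw [← mul_pow, div_mul_cancel₀ _ hρ.ne']
    calc e2 * (gg W ‖F y1‖ * (d / 2) ^ G.Q) = (e2 * gg W ‖F y1‖) * (d / 2) ^ G.Q := by ring
      _ ≤ ((R / (d / 2)) ^ G.Q * av G x R (fun z => gg W ‖F z‖)) * (d / 2) ^ G.Q :=
          mul_le_mul_of_nonneg_right h4 (pow_nonneg hρ.le _)
      _ = ((R / (d / 2)) ^ G.Q * (d / 2) ^ G.Q) * av G x R (fun z => gg W ‖F z‖) := by ring
      _ = _ := by rw [h5]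
  have h6 : gg W ‖F y‖ * (R / 2) ^ G.Q ≤ Φ y := by
    refine mul_le_mul_of_nonneg_left (pow_le_pow_left₀ (by positivity) ?_ _) (hg0 y)
    have := (G.mem_B).1 hy
    linarith
  have h7 := hleS y hyR
  have h8 : Φ y1 = 2 ^ G.Q * (gg W ‖F y1‖ * (d / 2) ^ G.Q) := by
    rw [hΦ, div_pow]
    simp only
    rw [← hd]
    field_simp
  have h9 : gg W ‖F y‖ * (R / 2) ^ G.Q ≤ 2 * (2 ^ G.Q * (gg W ‖F y1‖ * (d / 2) ^ G.Q)) := by
    rw [← h8]
    linarith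
  have h10 : gg W ‖F y‖ * (R / 2) ^ G.Q ≤
      (2 ^ (2 * G.Q + 1) / e2 * av G x R (fun z => gg W ‖F z‖)) * (R / 2) ^ G.Q := by
    refine h9.trans ?_
    have h11 : (2 ^ (2 * G.Q + 1) / e2 * av G x R (fun z => gg W ‖F z‖)) * (R / 2) ^ G.Q =
        2 * 2 ^ G.Q / e2 * (R ^ G.Q * av G x R (fun z => gg W ‖F z‖)) := by
      rw [div_pow, pow_succ, two_mul, pow_add]
      field_simp
    rw [h11]
    calc 2 * (2 ^ G.Q * (gg W ‖F y1‖ * (d / 2) ^ G.Q))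
        = 2 * 2 ^ G.Q / e2 * (e2 * (gg W ‖F y1‖ * (d / 2) ^ G.Q)) := by field_simp
      _ ≤ _ := mul_le_mul_of_nonneg_left h3 (by positivity)
  exact le_of_mul_le_mul_right h10 (by positivity)

end Pool.Agent.CG.L
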