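import Pool.Agent.CG.AvDef
import Pool.Agent.CG.A.Ball

/-!
# CG, part L: averages over balls
-/

set_option autoImplicit false

namespace Pool.Agent.CG.L

open MeasureTheory Set Filter Topology
open scoped ContDiff ENNReal

variable {N m : ℕ} (G : Carnot N m)

theorem B_mono {x : Pt N} {r R : ℝ} (h : r ≤ R) : G.B x r ⊆ G.B x R := by
  intro y hy
  rw [G.mem_B] at hy ⊢
  exact lt_of_lt_of_le hy h

theorem B_sub {x y : Pt N} {r R : ℝ} (h : G.di x y + r ≤ R) : G.B y r ⊆ G.B x R := by
  intro z hz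
  rw [G.mem_B] at hz ⊢
  have := G.di_triangle x y z
  linarith

theorem mem_B_self (x : Pt N) {r : ℝ} (hr : 0 < r) : x ∈ G.B x r := by
  rw [G.mem_B, G.di_self]
  exact hr

theorem meas_B (x : Pt N) (r : ℝ) : MeasurableSet (G.B x r) := (G.isOpen_B x r).measurableSet

theorem volr_B_pos (x : Pt N) {r : ℝ} (hr : 0 < r) : 0 < volume.real (G.B x r) :=
  ENNReal.toReal_pos (G.vol_B_pos x hr).ne' (G.vol_B_lt_top x r).ne

theorem volr_B (x : Pt N) {r : ℝ} (hr : 0 < r) :
    volume.real (G.B x r) = r ^ G.Q * volume.real (G.B 0 1) := by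
  unfold Measure.real
  rw [G.vol_B x hr, ENNReal.toReal_mul, ENNReal.toReal_ofReal (by positivity)]

theorem av_nonneg {x : Pt N} {r : ℝ} {f : Pt N → ℝ} (hf : ∀ y ∈ G.B x r, 0 ≤ f y) :
    0 ≤ av G x r f := by
  unfold av
  refine mul_nonneg (by positivity) ?_
  exact setIntegral_nonneg (meas_B G x r) hf

theorem av_const (x : Pt N) {r : ℝ} (hr : 0 < r) (c : ℝ) : av G x r (fun _ => c) = c := by
  unfold av
  rw [setIntegral_const, smul_eq_mul, ← mul_assoc, inv_mul_cancel₀ (volr_B_pos G x hr).ne', one_mul]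

theorem av_mono {x : Pt N} {r : ℝ} {f g : Pt N → ℝ} (hf : IntegrableOn f (G.B x r))
    (hg : IntegrableOn g (G.B x r)) (h : ∀ y ∈ G.B x r, f y ≤ g y) : av G x r f ≤ av G x r g := by
  unfold av
  exact mul_le_mul_of_nonneg_left (setIntegral_mono_on hf hg (meas_B G x r) h) (by positivity)

theorem av_congr {x : Pt N} {r : ℝ} {f g : Pt N → ℝ} (h : ∀ y ∈ G.B x r, f y = g y) :
    av G x r f = av G x r g := by
  unfold av
  rw [setIntegral_congr_fun (meas_B G x r) h]

theorem av_add {x : Pt N} {r : ℝ} {f g : Pt N → ℝ} (hf : IntegrableOn f (G.B x r))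
    (hg : IntegrableOn g (G.B x r)) :
    av G x r (fun y => f y + g y) = av G x r f + av G x r g := by
  unfold av
  rw [integral_add hf hg, mul_add]

theorem av_mul (x : Pt N) (r c : ℝ) (f : Pt N → ℝ) :
    av G x r (fun y => c * f y) = c * av G x r f := by
  unfold av
  rw [integral_const_mul]
  ring

theorem intOn_const (x : Pt N) (r c : ℝ) : IntegrableOn (fun _ : Pt N => c) (G.B x r) :=
  integrableOn_const (G.vol_B_lt_top x r).ne

/-- Comparison of averages over nested balls. -/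
theorem av_ball_le {x y : Pt N} {r R : ℝ} (hr : 0 < r) (hR : 0 < R) (hs : G.B y r ⊆ G.B x R)
    {f : Pt N → ℝ} (hf : IntegrableOn f (G.B x R)) (h0 : ∀ z ∈ G.B x R, 0 ≤ f z) :
    av G y r f ≤ (R / r) ^ G.Q * av G x R f := by
  unfold av
  have h1 : ∫ z in G.B y r, f z ≤ ∫ z in G.B x R, f z := by
    refine setIntegral_mono_set hf ?_ (Eventually.of_forall hs)
    exact (ae_restrict_iff' (meas_B G x R)).2 (Eventually.of_forall h0)
  have hV := volr_B_pos G (0 : Pt N) one_pos
  rw [volr_B G y hr, volr_B G x hR]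
  have e : (R / r) ^ G.Q * ((R ^ G.Q * volume.real (G.B 0 1))⁻¹ * ∫ z in G.B x R, f z) =
      (r ^ G.Q * volume.real (G.B 0 1))⁻¹ * ∫ z in G.B x R, f z := by
    rw [div_pow]
    field_simp
  rw [e]
  exact mul_le_mul_of_nonneg_left h1 (by positivity)

/-- Change of variables. -/
theorem av_scale (x : Pt N) {ρ r : ℝ} (hρ : 0 < ρ) (hr : 0 < r) (f : Pt N → ℝ) :
    av G x (ρ * r) f = av G 0 r (fun y => f (G.mul x (G.del ρ y))) := by
  unfold av
  rw [volr_B G x (mul_pos hρ hr), volr_B G 0 hr]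
  have h1 : ∫ y in G.B x (ρ * r), f y = ∫ y in G.B 0 (ρ * r), f (G.mul x y) := by
    rw [← integral_indicator (meas_B G x _), ← integral_indicator (meas_B G 0 _)]
    have e : (fun y => (G.B 0 (ρ * r)).indicator (fun y => f (G.mul x y)) y) =
        fun y => (G.B x (ρ * r)).indicator f (G.mul x y) := by
      funext y
      have hiff : G.mul x y ∈ G.B x (ρ * r) ↔ y ∈ G.B 0 (ρ * r) := by
        have := G.preimage_left_B x 0 (ρ * r)
        rw [G.mul_zero] at this
        rw [← this]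
        rfl
      by_cases hy : y ∈ G.B 0 (ρ * r)
      · rw [indicator_of_mem hy, indicator_of_mem (hiff.2 hy)]
      · rw [indicator_of_notMem hy, indicator_of_notMem (fun h => hy (hiff.1 h))]
    rw [e]
    exact ((G.mp_left x).integral_comp (G.homeoL x).measurableEmbedding _).symm
  have h2 : ∫ y in G.B 0 (ρ * r), f (G.mul x y) =
      ρ ^ G.Q * ∫ y in G.B 0 r, f (G.mul x (G.del ρ y)) := by
    rw [← integral_indicator (meas_B G 0 _), ← integral_indicator (meas_B G 0 _)]
    have e : (fun y => (G.B 0 r).indicator (fun y => f (G.mul x (G.del ρ y))) y) =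
        fun y => (G.B 0 (ρ * r)).indicator (fun y => f (G.mul x y)) (G.del ρ y) := by
      funext y
      have hiff : G.del ρ y ∈ G.B 0 (ρ * r) ↔ y ∈ G.B 0 r := by
        have := G.preimage_del_B hρ 0 r
        rw [G.del_zero] at this
        rw [← this]
        rfl
      by_cases hy : y ∈ G.B 0 r
      · rw [indicator_of_mem hy, indicator_of_mem (hiff.2 hy)]
      · rw [indicator_of_notMem hy, indicator_of_notMem (fun h => hy (hiff.1 h))]
    rw [e, G.integral_del hρ, smul_eq_mul, ← mul_assoc, ← mul_pow, mul_inv_cancel₀ hρ.ne',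
      one_pow, one_mul]
  rw [h1, h2, mul_pow]
  have := volr_B_pos G (0 : Pt N) one_pos
  field_simp

/-- Continuous bounded functions of the gradient are integrable on balls. -/
theorem intOn_of_cont {x : Pt N} {r : ℝ} {f : Pt N → ℝ} (hf : ContinuousOn f (G.B x r)) {M : ℝ}
    (hM : ∀ y ∈ G.B x r, |f y| ≤ M) : IntegrableOn f (G.B x r) := by
  have : IsFiniteMeasure (volume.restrict (G.B x r)) :=
    ⟨by rw [Measure.restrict_apply_univ]; exact G.vol_B_lt_top x r⟩
  refine Integrable.of_bound (hf.aestronglyMeasurable (meas_B G x r)) M ?_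
  exact (ae_restrict_iff' (meas_B G x r)).2 (Eventually.of_forall fun y hy => hM y hy)

/-- A function locally in `L^q` on a ball is a.e. strongly measurable there. -/
theorem aesm_of_lqLoc {F : Type} [NormedAddCommGroup F] {q : ℝ≥0∞} {x : Pt N} {r : ℝ}
    {f : Pt N → F} (hf : LqLoc q (G.B x r) f) : AEStronglyMeasurable f (volume.restrict (G.B x r)) := by
  have hU : G.B x r = ⋃ n : ℕ, {y | G.di x y ≤ r - 1 / ((n : ℝ) + 1)} := by
    ext y
    rw [G.mem_B, mem_iUnion]
    constructor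
    · intro hy
      obtain ⟨n, hn⟩ := exists_nat_one_div_lt (sub_pos.2 hy)
      exact ⟨n, by rw [mem_ofPred_eq]; linarith⟩
    · rintro ⟨n, hn⟩
      rw [mem_ofPred_eq] at hn
      have : (0 : ℝ) < 1 / ((n : ℝ) + 1) := by positivity
      linarith
  rw [hU, aestronglyMeasurable_iUnion_iff]
  intro n
  refine (hf _ (G.isCompact_cB x _) ?_).1
  intro y hy
  rw [mem_ofPred_eq] at hy
  rw [G.mem_B]
  have : (0 : ℝ) < 1 / ((n : ℝ) + 1) := by positivity
  linarith

theorem intOn_sq {x : Pt N} {r : ℝ} {F : Pt N → Hv m} (hF : LqLoc 2 (G.B x r) F) {M : ℝ}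
    (hM : ∀ᵐ y, y ∈ G.B x r → ‖F y‖ ≤ M) (v : Hv m) :
    IntegrableOn (fun y => ‖F y - v‖ ^ 2) (G.B x r) := by
  have h1 := aesm_of_lqLoc G hF
  have : IsFiniteMeasure (volume.restrict (G.B x r)) :=
    ⟨by rw [Measure.restrict_apply_univ]; exact G.vol_B_lt_top x r⟩
  refine Integrable.of_bound ((h1.sub aestronglyMeasurable_const).norm.pow 2) ((M + ‖v‖) ^ 2) ?_
  · rw [ae_restrict_iff' (meas_B G x r)]
    filter_upwards [hM] with y hy hyB
    rw [Real.norm_of_nonneg (by positivity)]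
    have h2 := hy hyB
    have h3 : ‖F y - v‖ ≤ M + ‖v‖ := (norm_sub_le _ _).trans (by linarith)
    exact pow_le_pow_left₀ (norm_nonneg _) h3 2

end Pool.Agent.CG.L
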