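import Pool.Agent.CG.L.FlatA

/-!
# CG, part L: a solution with a large gradient at the centre has a large average
-/

set_option autoImplicit false

namespace Pool.Agent.CG.L

open MeasureTheory Set Filter Topology
open scoped ContDiff ENNReal

variable {N m : ℕ}

theorem intOn_sub_sq {G : Carnot N m} {x : Pt N} {r : ℝ} {F : Pt N → Hv m}
    (hF : ContinuousOn F (G.B x r)) (h1 : ∀ y ∈ G.B x r, ‖F y‖ ≤ 1) (v : Hv m) :
    IntegrableOn (fun y => ‖F y - v‖ ^ 2) (G.B x r) := by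
  refine intOn_of_cont G (M := (1 + ‖v‖) ^ 2) ((hF.sub continuousOn_const).norm.pow 2) ?_
  intro y hy
  rw [abs_of_nonneg (by positivity)]
  have h3 : ‖F y - v‖ ≤ 1 + ‖v‖ := (norm_sub_le _ _).trans (by linarith [h1 y hy])
  exact pow_le_pow_left₀ (norm_nonneg _) h3 2

theorem intOn_norm_sq {G : Carnot N m} {x : Pt N} {r : ℝ} {F : Pt N → Hv m}
    (hF : ContinuousOn F (G.B x r)) (h1 : ∀ y ∈ G.B x r, ‖F y‖ ≤ 1) :
    IntegrableOn (fun y => ‖F y‖ ^ 2) (G.B x r) := by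
  have := intOn_sub_sq hF h1 0
  simpa using this

theorem sq_two (a b : Hv m) : ‖a‖ ^ 2 ≤ 2 * ‖b‖ ^ 2 + 2 * ‖b - a‖ ^ 2 := by
  have h1 : ‖a‖ ≤ ‖b‖ + ‖b - a‖ := by
    have := norm_sub_le b (b - a)
    rwa [sub_sub_cancel] at this
  have h2 : ‖a‖ ^ 2 ≤ (‖b‖ + ‖b - a‖) ^ 2 := pow_le_pow_left₀ (norm_nonneg _) h1 2
  nlinarith [sq_nonneg (‖b‖ - ‖b - a‖)]

/-- averaging an inequality with a constant left side -/
theorem const_le_av {G : Carnot N m} {x : Pt N} {r c : ℝ} (hr : 0 < r) {f : Pt N → ℝ}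
    (hf : IntegrableOn f (G.B x r)) (h : ∀ y ∈ G.B x r, c ≤ f y) : c ≤ av G x r f := by
  rw [← av_const G x hr c]
  exact av_mono G (intOn_const G x r c) hf h

theorem av_le_const {G : Carnot N m} {x : Pt N} {r c : ℝ} (hr : 0 < r) {f : Pt N → ℝ}
    (hf : IntegrableOn f (G.B x r)) (h : ∀ y ∈ G.B x r, f y ≤ c) : av G x r f ≤ c := by
  rw [← av_const G x hr c]
  exact av_mono G hf (intOn_const G x r c) h

theorem core (G : Carnot N m) {a b L : ℝ} (ha0 : 0 ≤ a) (ha : a < 1) (hb : 0 ≤ b) (hL : 1 ≤ L) {c0 : ℝ}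
    (hc0 : 0 < c0) : ∃ ε : ℝ, 0 < ε ∧ ∀ A : Hv m → Hv m, Nrm a b L A →
    ∀ (y : Pt N) (ρ : ℝ), 0 < ρ → ∀ (u : Pt N → ℝ) (F : Pt N → Hv m), Sol G 2 (G.B y ρ) A u F →
    ContinuousOn F (G.B y ρ) → (∀ z ∈ G.B y ρ, ‖F z‖ ≤ 1) → c0 ≤ ‖F y‖ →
    ε ≤ av G y ρ (fun z => ‖F z‖ ^ 2) := by
  obtain ⟨β, hβ0, hβ1, e0, he0, C, hC, hN⟩ := lemN_cont G ha0 ha hb hL (half_pos hc0)
  set e1 : ℝ := c0 ^ 2 / 32 with he1
  have he1p : 0 < e1 := by positivity
  set e : ℝ := min e0 (min (e1 / C ^ 2) (e1 / 4 ^ G.Q)) with hedef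
  have hep : 0 < e := lt_min he0 (lt_min (by positivity) (by positivity))
  have hee0 : e ≤ e0 := min_le_left _ _
  have heC : C ^ 2 * e ≤ e1 := by
    have : e ≤ e1 / C ^ 2 := (min_le_right _ _).trans (min_le_left _ _)
    calc C ^ 2 * e ≤ C ^ 2 * (e1 / C ^ 2) := mul_le_mul_of_nonneg_left this (by positivity)
      _ = e1 := by field_simp
  have heQ : 4 ^ G.Q * e ≤ e1 := by
    have : e ≤ e1 / 4 ^ G.Q := (min_le_right _ _).trans (min_le_right _ _)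
    calc 4 ^ G.Q * e ≤ 4 ^ G.Q * (e1 / 4 ^ G.Q) := mul_le_mul_of_nonneg_left this (by positivity)
      _ = e1 := by field_simp
  obtain ⟨r0, hr0, hr01, hflat⟩ := flat G ha0 ha hb hL hep
  obtain ⟨i0, hi0⟩ := exists_pow_lt_of_lt_one (half_pos hr0) (by norm_num : (1 / 2 : ℝ) < 1)
  refine ⟨c0 ^ 2 / 4 / (2 ^ i0) ^ G.Q, by positivity, ?_⟩
  intro A hA y ρ hρ u F hS hFc hF hFy
  have hrp : ∀ i : ℕ, 0 < ρ * (1 / 2) ^ i := fun i => by positivity
  have hrle : ∀ i : ℕ, ρ * (1 / 2) ^ i ≤ ρ := by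
    intro i
    have : ((1 : ℝ) / 2) ^ i ≤ 1 := pow_le_one₀ (by norm_num) (by norm_num)
    nlinarith
  have hFc' : ∀ r : ℝ, r ≤ ρ → ContinuousOn F (G.B y r) := fun r hr => hFc.mono (B_mono G hr)
  have hF' : ∀ r : ℝ, r ≤ ρ → ∀ z ∈ G.B y r, ‖F z‖ ≤ 1 := fun r hr z hz => hF z (B_mono G hr hz)
  -- one step
  have step : ∀ i : ℕ, i0 ≤ i →
      av G y (ρ * (1 / 2) ^ (i + 1)) (fun z => ‖F z - F y‖ ^ 2) ≤ e1 →
      av G y (ρ * (1 / 2) ^ i) (fun z => ‖F z - F y‖ ^ 2) ≤ e1 := by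
    intro i hi hE
    have h2i : 2 * (1 / 2 : ℝ) ^ i ≤ r0 := by
      have h1 : (1 / 2 : ℝ) ^ i ≤ (1 / 2) ^ i0 :=
        pow_le_pow_of_le_one (by norm_num) (by norm_num) hi
      linarith
    set R' : ℝ := 2 * (ρ * (1 / 2) ^ i) / r0 with hR'
    have hR'p : 0 < R' := by positivity
    have hR'ρ : R' ≤ ρ := by
      rw [hR', div_le_iff₀ hr0]
      nlinarith
    have h2ρ : 2 * (ρ * (1 / 2) ^ i) ≤ ρ := by nlinarith
    have hrR : r0 * R' = 2 * (ρ * (1 / 2) ^ i) := by rw [hR']; field_simp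
    obtain ⟨v, hv1, hv⟩ := hflat A hA y R' hR'p u F (sol_mono hS (B_mono G hR'ρ))
      (Eventually.of_forall (hF' R' hR'ρ))
    rw [hrR] at hv
    have h3 : av G y (ρ * (1 / 2) ^ (i + 1)) (fun z => ‖F z - v‖ ^ 2) ≤ e1 := by
      have h4 := av_ball_le G (x := y) (y := y) (hrp (i + 1))
        (mul_pos two_pos (hrp i))
        (B_mono G (by rw [pow_succ]; nlinarith [hrp i]))
        (intOn_sub_sq (hFc' _ h2ρ) (hF' _ h2ρ) v) (fun z _ => by positivity)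
      have h5 : 2 * (ρ * (1 / 2) ^ i) / (ρ * (1 / 2) ^ (i + 1)) = 4 := by
        rw [pow_succ]
        field_simp
        norm_num
      rw [h5] at h4
      calc _ ≤ _ := h4
        _ ≤ 4 ^ G.Q * e := mul_le_mul_of_nonneg_left hv (by positivity)
        _ ≤ e1 := heQ
    have hle1 := hrle (i + 1)
    have hle0 := hrle i
    have h6 : ‖F y - v‖ ^ 2 ≤ (c0 / 2) ^ 2 := by
      have h7 : ‖F y - v‖ ^ 2 ≤ av G y (ρ * (1 / 2) ^ (i + 1))
          (fun z => 2 * ‖F z - v‖ ^ 2 + 2 * ‖F z - F y‖ ^ 2) := by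
        refine const_le_av (hrp _) ?_ ?_
        · exact ((intOn_sub_sq (hFc' _ hle1) (hF' _ hle1) v).const_mul 2).add
            ((intOn_sub_sq (hFc' _ hle1) (hF' _ hle1) (F y)).const_mul 2)
        · intro z _
          have h8 := sq_two (F y - v) (F z - v)
          rwa [sub_sub_sub_cancel_right] at h8
      rw [av_add G ((intOn_sub_sq (hFc' _ hle1) (hF' _ hle1) v).const_mul 2)
        ((intOn_sub_sq (hFc' _ hle1) (hF' _ hle1) (F y)).const_mul 2), av_mul, av_mul] at h7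
      have : e1 = c0 ^ 2 / 32 := he1
      nlinarith
    have h9 : ‖F y - v‖ ≤ c0 / 2 := by
      have := abs_le_of_sq_le_sq h6 (by positivity)
      exact (le_abs_self _).trans this
    have hv2 : c0 / 2 ≤ ‖v‖ := by
      have h10 : ‖F y‖ ≤ ‖F y - v‖ + ‖v‖ := by
        have := norm_add_le (F y - v) v
        rwa [sub_add_cancel] at this
      linarith
    have h11 := hN A hA y (2 * (ρ * (1 / 2) ^ i)) (mul_pos two_pos (hrp i)) u F
      (sol_mono hS (B_mono G h2ρ)) (hFc' _ h2ρ) (hF' _ h2ρ) v hv2 e hee0 hv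
    have e2 : 2 * (ρ * (1 / 2) ^ i) / 2 = ρ * (1 / 2 : ℝ) ^ i := by ring
    rw [e2] at h11
    refine av_le_const (hrp i) (intOn_sub_sq (hFc' _ hle0) (hF' _ hle0) (F y)) ?_
    intro z hz
    have h12 := h11 z hz y (mem_B_self G y (hrp i))
    have h13 : (G.di z y / (2 * (ρ * (1 / 2) ^ i))) ^ β ≤ 1 := by
      refine Real.rpow_le_one (div_nonneg (G.di_nonneg _ _) (mul_pos two_pos (hrp i)).le) ?_ hβ0.le
      rw [div_le_one (mul_pos two_pos (hrp i)), G.di_comm]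
      have := (G.mem_B).1 hz
      linarith [hrp i]
    have h14 : ‖F z - F y‖ ≤ C * Real.sqrt e := by
      refine h12.trans ?_
      have : 0 ≤ C * Real.sqrt e := mul_nonneg hC.le (Real.sqrt_nonneg _)
      nlinarith
    calc ‖F z - F y‖ ^ 2 ≤ (C * Real.sqrt e) ^ 2 := pow_le_pow_left₀ (norm_nonneg _) h14 2
      _ = C ^ 2 * e := by rw [mul_pow, Real.sq_sqrt hep.le]
      _ ≤ e1 := heC
  -- small scales
  have small : ∃ n : ℕ, i0 ≤ n ∧
      av G y (ρ * (1 / 2) ^ n) (fun z => ‖F z - F y‖ ^ 2) ≤ e1 := by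
    have hopen : IsOpen (G.B y ρ ∩ F ⁻¹' Metric.ball (F y) (Real.sqrt e1)) :=
      hFc.isOpen_inter_preimage (G.isOpen_B y ρ) Metric.isOpen_ball
    have hmem : y ∈ G.B y ρ ∩ F ⁻¹' Metric.ball (F y) (Real.sqrt e1) :=
      ⟨mem_B_self G y hρ, Metric.mem_ball_self (Real.sqrt_pos.2 he1p)⟩
    obtain ⟨δ, hδ, hsub⟩ := G.exists_B_subset hopen hmem
    obtain ⟨n, hn⟩ := exists_pow_lt_of_lt_one (div_pos hδ hρ) (by norm_num : (1 / 2 : ℝ) < 1)
    refine ⟨max i0 n, le_max_left _ _, ?_⟩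
    have h1 : ρ * (1 / 2 : ℝ) ^ max i0 n ≤ δ := by
      have h2 : (1 / 2 : ℝ) ^ max i0 n ≤ (1 / 2) ^ n :=
        pow_le_pow_of_le_one (by norm_num) (by norm_num) (le_max_right _ _)
      rw [lt_div_iff₀ hρ] at hn
      nlinarith
    refine av_le_const (hrp _) (intOn_sub_sq (hFc' _ (hrle _)) (hF' _ (hrle _)) (F y)) ?_
    intro z hz
    have h3 : z ∈ {z | G.di y z ≤ δ} := by
      have := (G.mem_B).1 hz
      change G.di y z ≤ δ
      linarith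
    have h4 := (hsub h3).2
    rw [mem_preimage, Metric.mem_ball, dist_eq_norm] at h4
    calc ‖F z - F y‖ ^ 2 ≤ (Real.sqrt e1) ^ 2 := pow_le_pow_left₀ (norm_nonneg _) h4.le 2
      _ = e1 := Real.sq_sqrt he1p.le
  obtain ⟨n, hn1, hn2⟩ := small
  have hfin : av G y (ρ * (1 / 2) ^ i0) (fun z => ‖F z - F y‖ ^ 2) ≤ e1 := by
    refine Nat.decreasingInduction' (P := fun i => av G y (ρ * (1 / 2) ^ i)
      (fun z => ‖F z - F y‖ ^ 2) ≤ e1) ?_ hn1 hn2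
    intro k _ hk hE
    exact step k hk hE
  have hle := hrle i0
  have h1 : c0 ^ 2 ≤ av G y (ρ * (1 / 2) ^ i0) (fun z => 2 * ‖F z‖ ^ 2 + 2 * ‖F z - F y‖ ^ 2) := by
    refine const_le_av (hrp _) ?_ ?_
    · exact ((intOn_norm_sq (hFc' _ hle) (hF' _ hle)).const_mul 2).add
        ((intOn_sub_sq (hFc' _ hle) (hF' _ hle) (F y)).const_mul 2)
    · intro z _
      have h2 := sq_two (F y) (F z)
      have h3 : c0 ^ 2 ≤ ‖F y‖ ^ 2 := pow_le_pow_left₀ hc0.le hFy 2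
      linarith
  rw [av_add G ((intOn_norm_sq (hFc' _ hle) (hF' _ hle)).const_mul 2)
    ((intOn_sub_sq (hFc' _ hle) (hF' _ hle) (F y)).const_mul 2), av_mul, av_mul] at h1
  have h4 := av_ball_le G (x := y) (y := y) (hrp i0) hρ (B_mono G hle)
    (intOn_norm_sq hFc hF) (fun z _ => by positivity)
  have h5 : ρ / (ρ * (1 / 2 : ℝ) ^ i0) = 2 ^ i0 := by
    rw [one_div, inv_pow]
    field_simp
  rw [h5] at h4
  rw [div_le_iff₀ (by positivity)]
  have : e1 = c0 ^ 2 / 32 := he1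
  nlinarith

end Pool.Agent.CG.L
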