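import Pool.Agent.CG.L.Av
import Pool.Agent.CG.LemN

/-!
# CG, part L: restriction and slope scaling of solutions, Lemma N for continuous gradients
-/

set_option autoImplicit false

namespace Pool.Agent.CG.L

open MeasureTheory Set Filter Topology
open scoped ContDiff ENNReal

variable {N m : ℕ} {G : Carnot N m} {q : ℝ≥0∞} {Ω Ω' : Set (Pt N)} {u : Pt N → ℝ}
  {F : Pt N → Hv m} {A : Hv m → Hv m}

theorem sol_mono (h : Sol G q Ω A u F) (hs : Ω' ⊆ Ω) : Sol G q Ω' A u F :=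
  ⟨h.toHW.mono hs, fun φ hφ => h.eqn φ ⟨hφ.smooth, hφ.cpt, hφ.sub.trans hs⟩⟩

/-- Slope scaling of a solution. -/
theorem sol_slope (h : Sol G q Ω A u F) {M : ℝ} (hM : 0 < M) (c : ℝ) :
    Sol G q Ω (fun ξ => c • A (M • ξ)) (fun x => M⁻¹ * u x) (fun x => M⁻¹ • F x) := by
  refine ⟨h.toHW.smul M⁻¹, fun φ hφ => ?_⟩
  have e : ∀ x, inner ℝ (c • A (M • M⁻¹ • F x)) (G.grad φ x) =
      c * inner ℝ (A (F x)) (G.grad φ x) := by
    intro x
    rw [smul_smul, mul_inv_cancel₀ hM.ne', one_smul, real_inner_smul_left]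
  simp only [e]
  rw [integral_const_mul, h.eqn φ hφ, mul_zero]

theorem nrm_slope_W {a b L : ℝ} {W : ℝ → ℝ} (hW : Wt a b W) (hA : AA W L A) {M : ℝ} (hM : 0 < M) :
    Nrm a b L (fun ξ => (M * W M)⁻¹ • A (M • ξ)) :=
  ⟨fun t => W (M * t) / W M, hW.scale hM, by simp [div_self (hW.pos M hM).ne'], hA.scale hW hM⟩

theorem nrm_slope {a b L : ℝ} (hA : Nrm a b L A) {M : ℝ} (hM : 0 < M) :
    ∃ c : ℝ, Nrm a b L (fun ξ => c • A (M • ξ)) := by
  obtain ⟨W, hW, _, h⟩ := hA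
  exact ⟨_, nrm_slope_W hW h hM⟩

/-- Lemma N for continuous gradients, pointwise. -/
theorem lemN_cont (G : Carnot N m) {a b L : ℝ} (ha0 : 0 ≤ a) (ha : a < 1) (hb : 0 ≤ b) (hL : 1 ≤ L)
    {c0 : ℝ} (hc0 : 0 < c0) : ∃ β : ℝ, 0 < β ∧ β < 1 ∧ ∃ e0 : ℝ, 0 < e0 ∧ ∃ C : ℝ, 0 < C ∧
    ∀ A : Hv m → Hv m, Nrm a b L A → ∀ (x : Pt N) (R : ℝ), 0 < R → ∀ (u : Pt N → ℝ) (F : Pt N → Hv m),
    Sol G 2 (G.B x R) A u F → ContinuousOn F (G.B x R) → (∀ y ∈ G.B x R, ‖F y‖ ≤ 1) →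
    ∀ v : Hv m, c0 ≤ ‖v‖ → ∀ e : ℝ, e ≤ e0 → av G x R (fun y => ‖F y - v‖ ^ 2) ≤ e →
      ∀ y ∈ G.B x (R / 2), ∀ z ∈ G.B x (R / 2),
        ‖F y - F z‖ ≤ C * Real.sqrt e * (G.di y z / R) ^ β := by
  obtain ⟨β, hβ0, hβ1, e0, he0, C, hC, hN⟩ := lemN G ha0 ha hb hL hc0
  refine ⟨β, hβ0, hβ1, e0, he0, C, hC, ?_⟩
  intro A hA x R hR u F hS hFc hF v hv e he hav y hy z hz
  obtain ⟨F', h1, h2⟩ := hN A hA x R hR u F hS (Eventually.of_forall hF) v hv (hav.trans he)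
  have hcont : ContinuousOn F' (G.B x (R / 2)) := by
    intro p hp
    rw [ContinuousWithinAt, tendsto_iff_norm_sub_tendsto_zero]
    have h3 : Tendsto (fun w => C * Real.sqrt (av G x R (fun y => ‖F y - v‖ ^ 2)) *
        (G.di w p / R) ^ β) (𝓝[G.B x (R / 2)] p) (𝓝 0) := by
      have h4 : Continuous fun w => C * Real.sqrt (av G x R (fun y => ‖F y - v‖ ^ 2)) *
          (G.di w p / R) ^ β := by
        have h5 : Continuous fun w : Pt N => G.di w p :=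
          G.continuous_di.comp (continuous_id.prodMk continuous_const)
        exact continuous_const.mul ((h5.div_const R).rpow_const fun _ => Or.inr hβ0.le)
      have h6 := h4.tendsto p
      rw [G.di_self, zero_div, Real.zero_rpow hβ0.ne', mul_zero] at h6
      exact h6.mono_left nhdsWithin_le_nhds
    refine squeeze_zero' (Eventually.of_forall fun _ => norm_nonneg _) ?_ h3
    filter_upwards [self_mem_nhdsWithin] with w hw
    exact h2 w hw p hp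
  have hEq : EqOn F F' (G.B x (R / 2)) := by
    refine Measure.eqOn_open_of_ae_eq (μ := volume) ?_ (G.isOpen_B x (R / 2))
      (hFc.mono (B_mono G (by linarith))) hcont
    exact (ae_restrict_iff' (meas_B G x (R / 2))).2 h1
  rw [hEq hy, hEq hz]
  refine (h2 y hy z hz).trans ?_
  have h7 : Real.sqrt (av G x R (fun y => ‖F y - v‖ ^ 2)) ≤ Real.sqrt e := Real.sqrt_le_sqrt hav
  have h8 : 0 ≤ (G.di y z / R) ^ β := Real.rpow_nonneg (div_nonneg (G.di_nonneg y z) hR.le) β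
  exact mul_le_mul_of_nonneg_right (mul_le_mul_of_nonneg_left h7 hC.le) h8

end Pool.Agent.CG.L
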