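import Pool.Agent.CG.L.Slope
import Pool.Agent.CG.LiouII
import Pool.Agent.CG.Cpt

/-!
# CG, part L: (FLAT)
-/

set_option autoImplicit false

namespace Pool.Agent.CG.L

open MeasureTheory Set Filter Topology
open scoped ContDiff ENNReal

variable {N m : ℕ}

theorem qmp_del (G : Carnot N m) {r : ℝ} (hr : 0 < r) :
    Measure.QuasiMeasurePreserving (G.del r) (volume : Measure (Pt N)) volume := by
  refine ⟨(G.continuous_del r).measurable, ?_⟩
  rw [G.map_del hr]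
  exact Measure.smul_absolutelyContinuous

theorem qmp_ld (G : Carnot N m) (x : Pt N) {r : ℝ} (hr : 0 < r) :
    Measure.QuasiMeasurePreserving (fun y => G.mul x (G.del r y)) (volume : Measure (Pt N))
      volume :=
  (G.mp_left x).quasiMeasurePreserving.comp (qmp_del G hr)

theorem mem_B_ld (G : Carnot N m) (x : Pt N) {ρ r : ℝ} (hρ : 0 < ρ) (y : Pt N) :
    G.mul x (G.del ρ y) ∈ G.B x (ρ * r) ↔ y ∈ G.B 0 r := by
  have h1 := G.preimage_left_B x 0 (ρ * r)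
  rw [G.mul_zero] at h1
  have h2 := G.preimage_del_B hρ 0 r
  rw [G.del_zero] at h2
  constructor
  · intro h
    have h3 : G.del ρ y ∈ G.B 0 (ρ * r) := by rw [← h1]; exact h
    rw [← h2]; exact h3
  · intro h
    have h3 : G.del ρ y ∈ G.B 0 (ρ * r) := by rw [← h2] at h; exact h
    rw [← h1] at h3; exact h3

/-- Translation and dilation of a solution to a ball centred at the origin. -/
theorem sol_ld {G : Carnot N m} {q : ℝ≥0∞} {A : Hv m → Hv m} {u : Pt N → ℝ} {F : Pt N → Hv m}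
    {x : Pt N} {ρ r : ℝ} (hρ : 0 < ρ) (h : Sol G q (G.B x (ρ * r)) A u F) :
    Sol G q (G.B 0 r) A (fun y => ρ⁻¹ * u (G.mul x (G.del ρ y)))
      (fun y => F (G.mul x (G.del ρ y))) := by
  have h1 := (h.left x).scale hρ
  refine sol_mono h1 ?_
  intro y hy
  exact (mem_B_ld G x hρ y).2 hy

/-- (FLAT) flatness at a fixed small scale. -/
theorem flat (G : Carnot N m) {a b L : ℝ} (ha0 : 0 ≤ a) (ha : a < 1) (hb : 0 ≤ b) (hL : 1 ≤ L) {e : ℝ}
    (he : 0 < e) : ∃ r0 : ℝ, 0 < r0 ∧ r0 < 1 ∧ ∀ A : Hv m → Hv m, Nrm a b L A →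
    ∀ (x : Pt N) (R : ℝ), 0 < R → ∀ (u : Pt N → ℝ) (F : Pt N → Hv m), Sol G 2 (G.B x R) A u F →
    (∀ᵐ y, y ∈ G.B x R → ‖F y‖ ≤ 1) →
    ∃ v : Hv m, ‖v‖ ≤ 1 ∧ av G x (r0 * R) (fun y => ‖F y - v‖ ^ 2) ≤ e := by
  by_contra hcon
  push Not at hcon
  have hn : ∀ n : ℕ, (0 : ℝ) < 1 / ((n : ℝ) + 2) ∧ 1 / ((n : ℝ) + 2) < 1 := by
    intro n
    have : (0 : ℝ) ≤ n := Nat.cast_nonneg n
    refine ⟨by positivity, ?_⟩
    rw [div_lt_one (by positivity)]
    linarith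
  have h := fun n : ℕ => hcon (1 / ((n : ℝ) + 2)) (hn n).1 (hn n).2
  choose A hA x R hR u F hS hF hv using h
  have hρ : ∀ n : ℕ, 0 < 1 / ((n : ℝ) + 2) * R n := fun n => mul_pos (hn n).1 (hR n)
  have hRR : ∀ n : ℕ, R n = 1 / ((n : ℝ) + 2) * R n * ((n : ℝ) + 2) := by
    intro n
    have : (0 : ℝ) ≤ n := Nat.cast_nonneg n
    field_simp
  have hS' : ∀ n : ℕ, Sol G 2 (G.B 0 ((n : ℝ) + 2)) (A n)
      (fun y => (1 / ((n : ℝ) + 2) * R n)⁻¹ * u n (G.mul (x n) (G.del (1 / ((n : ℝ) + 2) * R n) y)))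
      (fun y => F n (G.mul (x n) (G.del (1 / ((n : ℝ) + 2) * R n) y))) := by
    intro n
    refine sol_ld (hρ n) ?_
    rw [← hRR n]
    exact hS n
  have hF' : ∀ n : ℕ, ∀ᵐ y, y ∈ G.B 0 ((n : ℝ) + 2) →
      ‖F n (G.mul (x n) (G.del (1 / ((n : ℝ) + 2) * R n) y))‖ ≤ 1 := by
    intro n
    have h1 := (qmp_ld G (x n) (hρ n)).ae (hF n)
    filter_upwards [h1] with y hy hyB
    refine hy ?_
    rw [hRR n]
    have := (mem_B_ld G (x n) (hρ n) y (r := (n : ℝ) + 2)).2 hyB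
    convert this using 2
    rw [← hRR n]
  have hlim : Tendsto (fun n : ℕ => (n : ℝ) + 2) atTop atTop :=
    tendsto_atTop_add_const_right _ _ tendsto_natCast_atTop_atTop
  obtain ⟨s, hs, A', u', F', hA', hSol, hF1, htend⟩ :=
    compactness G ha0 ha hb hL A _ _ hA (fun n : ℕ => (n : ℝ) + 2) hlim hS' hF'
  obtain ⟨v, hv1, hFv⟩ := liouville G ha0 ha hb hL hA' hSol hF1
  have h2 := htend 1
  have h3 : Tendsto (fun n => (volume.real (G.B (0 : Pt N) 1))⁻¹ *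
      ∫ y in G.B 0 1, ‖F (s n) (G.mul (x (s n)) (G.del (1 / ((s n : ℝ) + 2) * R (s n)) y)) -
        F' y‖ ^ 2) atTop (𝓝 0) := by
    have := h2.const_mul (volume.real (G.B (0 : Pt N) 1))⁻¹
    rwa [mul_zero] at this
  have h4 : ∀ n, e ≤ (volume.real (G.B (0 : Pt N) 1))⁻¹ *
      ∫ y in G.B 0 1, ‖F (s n) (G.mul (x (s n)) (G.del (1 / ((s n : ℝ) + 2) * R (s n)) y)) -
        F' y‖ ^ 2 := by
    intro n
    have h5 := (hv (s n) v hv1).le
    refine h5.trans (le_of_eq ?_)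
    have h6 := av_scale G (x (s n)) (hρ (s n)) one_pos (fun y => ‖F (s n) y - v‖ ^ 2)
    rw [mul_one] at h6
    rw [h6]
    unfold av
    congr 1
    refine integral_congr_ae ?_
    refine ae_restrict_of_ae ?_
    filter_upwards [hFv] with y hy
    rw [hy]
  have h7 := ge_of_tendsto' h3 h4
  linarith

end Pool.Agent.CG.L
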