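import Pool.Agent.CG.L.Core

/-!
# CG, part L: (S3), the Hölder bound
-/

set_option autoImplicit false

namespace Pool.Agent.CG.L

open MeasureTheory Set Filter Topology
open scoped ContDiff ENNReal

variable {N m : ℕ}

/-- Hölder bound at the centre of a ball. -/
theorem hol_centre (G : Carnot N m) {a b L : ℝ} (ha0 : 0 ≤ a) (ha : a < 1) (hb : 0 ≤ b) (hL : 1 ≤ L) :
    ∃ α : ℝ, 0 < α ∧ α < 1 ∧ ∃ K : ℝ, 0 < K ∧ ∀ A : Hv m → Hv m, Nrm a b L A →
    ∀ (y : Pt N) (ρ : ℝ), 0 < ρ → ∀ (u : Pt N → ℝ) (F : Pt N → Hv m), Sol G 2 (G.B y ρ) A u F →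
    ContinuousOn F (G.B y ρ) → (∀ z ∈ G.B y ρ, ‖F z‖ ≤ 1) →
    ∀ z ∈ G.B y ρ, ‖F z - F y‖ ≤ K * (G.di y z / ρ) ^ α := by
  obtain ⟨ε, hε, hcore⟩ := core G ha0 ha hb hL (half_pos one_pos)
  set c0 : ℝ := Real.sqrt (ε / (8 * 2 ^ G.Q)) with hc0def
  have hc0 : 0 < c0 := Real.sqrt_pos.2 (by positivity)
  have hc0sq : c0 ^ 2 = ε / (8 * 2 ^ G.Q) := Real.sq_sqrt (by positivity)
  obtain ⟨β, hβ0, hβ1, e0, he0, C, hC, hN⟩ := lemN_cont G ha0 ha hb hL hc0
  set e : ℝ := min e0 (min 1 (ε / (8 * 2 ^ G.Q))) with hedef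
  have hep : 0 < e := lt_min he0 (lt_min one_pos (by positivity))
  have hee0 : e ≤ e0 := min_le_left _ _
  have he1 : e ≤ 1 := (min_le_right _ _).trans (min_le_left _ _)
  have heε : e ≤ ε / (8 * 2 ^ G.Q) := (min_le_right _ _).trans (min_le_right _ _)
  obtain ⟨r0, hr0, hr01, hflat⟩ := flat G ha0 ha hb hL hep
  set lam : ℝ := r0 / 2 with hlam
  have hlam0 : 0 < lam := half_pos hr0
  have hlam1 : lam < 1 := by rw [hlam]; linarith
  set α : ℝ := min β (Real.log 2 / Real.log (1 / lam)) with hα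
  have hlog : 0 < Real.log (1 / lam) := Real.log_pos (by rw [lt_div_iff₀ hlam0]; linarith)
  have hα0 : 0 < α := lt_min hβ0 (div_pos (Real.log_pos (by norm_num)) hlog)
  have hαβ : α ≤ β := min_le_left _ _
  have hα1 : α < 1 := lt_of_le_of_lt hαβ hβ1
  have hlα : 1 / 2 ≤ lam ^ α := by
    have h1 : (1 / lam) ^ α ≤ 2 := by
      rw [Real.rpow_def_of_pos (by positivity)]
      calc Real.exp (Real.log (1 / lam) * α) ≤ Real.exp (Real.log 2) := by
            refine Real.exp_le_exp.2 ?_
            have : α ≤ Real.log 2 / Real.log (1 / lam) := min_le_right _ _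
            rw [le_div_iff₀ hlog] at this
            linarith
        _ = 2 := Real.exp_log (by norm_num)
    have h2 : 0 < lam ^ α := Real.rpow_pos_of_pos hlam0 α
    rw [Real.div_rpow one_pos.le hlam0.le, Real.one_rpow, div_le_iff₀ h2] at h1
    linarith
  have hlαp : 0 < lam ^ α := Real.rpow_pos_of_pos hlam0 α
  set K : ℝ := 4 + 4 * C with hK
  have hKp : 0 < K := by positivity
  refine ⟨α, hα0, hα1, K, hKp, ?_⟩
  -- induction on the scale
  have key : ∀ n : ℕ, ∀ A : Hv m → Hv m, Nrm a b L A →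
      ∀ (y : Pt N) (ρ : ℝ), 0 < ρ → ∀ (u : Pt N → ℝ) (F : Pt N → Hv m), Sol G 2 (G.B y ρ) A u F →
      ContinuousOn F (G.B y ρ) → (∀ z ∈ G.B y ρ, ‖F z‖ ≤ 1) →
      ∀ z ∈ G.B y ρ, lam ^ n * ρ ≤ G.di y z → ‖F z - F y‖ ≤ K * (G.di y z / ρ) ^ α := by
    intro n
    induction n with
    | zero =>
      intro A hA y ρ hρ u F hS hFc hF z hz hz2
      have := (G.mem_B).1 hz
      rw [pow_zero, one_mul] at hz2
      linarith
    | succ n ih =>
      intro A hA y ρ hρ u F hS hFc hF z hz hz2
      have hdn := G.di_nonneg y z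
      have hyρ := mem_B_self G y hρ
      by_cases hbig : lam * ρ ≤ G.di y z
      · -- trivial bound
        have h1 : ‖F z - F y‖ ≤ 2 := (norm_sub_le _ _).trans (by linarith [hF z hz, hF y hyρ])
        have h2 : lam ^ α ≤ (G.di y z / ρ) ^ α :=
          Real.rpow_le_rpow hlam0.le (by rwa [le_div_iff₀ hρ]) hα0.le
        have h3 : 1 / 2 ≤ (G.di y z / ρ) ^ α := hlα.trans h2
        nlinarith
      · push Not at hbig
        have hlρ : 0 < lam * ρ := mul_pos hlam0 hρ
        have hlρle : lam * ρ ≤ ρ := by nlinarith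
        have hzl : z ∈ G.B y (lam * ρ) := (G.mem_B).2 hbig
        have hr0ρ : 0 < r0 * ρ := mul_pos hr0 hρ
        have hr0le : r0 * ρ ≤ ρ := by nlinarith
        have e2 : r0 * ρ / 2 = lam * ρ := by rw [hlam]; ring
        obtain ⟨v, hv1, hv⟩ := hflat A hA y ρ hρ u F hS (Eventually.of_forall hF)
        have hFc0 : ContinuousOn F (G.B y (r0 * ρ)) := hFc.mono (B_mono G hr0le)
        have hF0 : ∀ z ∈ G.B y (r0 * ρ), ‖F z‖ ≤ 1 := fun w hw => hF w (B_mono G hr0le hw)
        by_cases hvc : c0 ≤ ‖v‖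
        · -- case (i)
          have h1 := hN A hA y (r0 * ρ) hr0ρ u F (sol_mono hS (B_mono G hr0le)) hFc0 hF0 v hvc e
            hee0 hv z (by rw [e2]; exact hzl) y (mem_B_self G y (by rw [e2]; exact hlρ))
          rw [G.di_comm z y] at h1
          have h2 : G.di y z / (r0 * ρ) ≤ 1 := by
            rw [div_le_one hr0ρ]
            have : lam * ρ ≤ r0 * ρ := by rw [← e2]; linarith
            linarith
          have h3 : 0 ≤ G.di y z / (r0 * ρ) := div_nonneg hdn hr0ρ.le
          have h4 : (G.di y z / (r0 * ρ)) ^ β ≤ (G.di y z / (r0 * ρ)) ^ α := by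
            rcases h3.eq_or_lt with h5 | h5
            · rw [← h5, Real.zero_rpow hβ0.ne', Real.zero_rpow hα0.ne']
            · exact Real.rpow_le_rpow_of_exponent_ge h5 h2 hαβ
          have h5 : (G.di y z / (r0 * ρ)) ^ α ≤ 2 * (G.di y z / ρ) ^ α := by
            have h6 : G.di y z / (r0 * ρ) ≤ (1 / lam) * (G.di y z / ρ) := by
              rw [div_mul_div_comm, one_mul]
              exact div_le_div_of_nonneg_left hdn hlρ (by rw [← e2]; linarith)
            calc (G.di y z / (r0 * ρ)) ^ α ≤ ((1 / lam) * (G.di y z / ρ)) ^ α :=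
                  Real.rpow_le_rpow h3 h6 hα0.le
              _ = (1 / lam) ^ α * (G.di y z / ρ) ^ α :=
                  Real.mul_rpow (by positivity) (div_nonneg hdn hρ.le)
              _ ≤ 2 * (G.di y z / ρ) ^ α := by
                  refine mul_le_mul_of_nonneg_right ?_ (Real.rpow_nonneg (div_nonneg hdn hρ.le) _)
                  rw [Real.div_rpow one_pos.le hlam0.le, Real.one_rpow, div_le_iff₀ hlαp]
                  linarith
          have h7 : Real.sqrt e ≤ 1 := by
            rw [Real.sqrt_le_one]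
            exact he1
          have h8 : 0 ≤ (G.di y z / ρ) ^ α := Real.rpow_nonneg (div_nonneg hdn hρ.le) _
          have h9 : 0 ≤ (G.di y z / (r0 * ρ)) ^ β := Real.rpow_nonneg h3 _
          calc ‖F z - F y‖ ≤ C * Real.sqrt e * (G.di y z / (r0 * ρ)) ^ β := h1
            _ ≤ C * 1 * (2 * (G.di y z / ρ) ^ α) := by
                refine mul_le_mul (mul_le_mul_of_nonneg_left h7 hC.le) (h4.trans h5) h9 (by positivity)
            _ ≤ K * (G.di y z / ρ) ^ α := by rw [hK]; nlinarith
        · -- case (ii)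
          push Not at hvc
          have hsmall : ∀ w ∈ G.B y (lam * ρ), ‖F w‖ ≤ 1 / 2 := by
            intro w hw
            by_contra hcon
            push Not at hcon
            have hwd := (G.mem_B).1 hw
            have hsub : G.B w (lam * ρ) ⊆ G.B y (r0 * ρ) := B_sub G (by
              have : r0 * ρ = lam * ρ + lam * ρ := by rw [← e2]; ring
              linarith)
            have h1 := hcore A hA w (lam * ρ) hlρ u F
              (sol_mono hS (hsub.trans (B_mono G hr0le))) (hFc0.mono hsub)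
              (fun p hp => hF0 p (hsub hp)) hcon.le
            have h2 := av_ball_le G hlρ hr0ρ hsub (intOn_norm_sq hFc0 hF0)
              (fun p _ => by positivity)
            have h3 : r0 * ρ / (lam * ρ) = 2 := by rw [hlam]; field_simp
            rw [h3] at h2
            have h4 : av G y (r0 * ρ) (fun p => ‖F p‖ ^ 2) ≤
                av G y (r0 * ρ) (fun p => 2 * ‖F p - v‖ ^ 2 + 2 * ‖v‖ ^ 2) := by
              refine av_mono G (intOn_norm_sq hFc0 hF0)
                (((intOn_sub_sq hFc0 hF0 v).const_mul 2).add (intOn_const G y _ _)) ?_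
              intro p _
              have h5 := sq_two (F p) v
              rw [norm_sub_rev v (F p)] at h5
              linarith
            rw [av_add G ((intOn_sub_sq hFc0 hF0 v).const_mul 2) (intOn_const G y _ _), av_mul,
              av_const G y hr0ρ] at h4
            have h6 : ‖v‖ ^ 2 ≤ ε / (8 * 2 ^ G.Q) := by
              rw [← hc0sq]
              exact pow_le_pow_left₀ (norm_nonneg _) hvc.le 2
            have h7 : av G y (r0 * ρ) (fun p => ‖F p‖ ^ 2) ≤ 4 * (ε / (8 * 2 ^ G.Q)) := by linarith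
            have h8 : ε ≤ 2 ^ G.Q * (4 * (ε / (8 * 2 ^ G.Q))) :=
              (h1.trans h2).trans (mul_le_mul_of_nonneg_left h7 (by positivity))
            have h9 : (2 : ℝ) ^ G.Q * (4 * (ε / (8 * 2 ^ G.Q))) = ε / 2 := by
              field_simp
              norm_num
            rw [h9] at h8
            linarith
          obtain ⟨c, hA'⟩ := nrm_slope hA (half_pos one_pos)
          have hS' := sol_slope (sol_mono hS (B_mono G hlρle)) (half_pos one_pos) c
          have hF' : ∀ w ∈ G.B y (lam * ρ), ‖((1 : ℝ) / 2)⁻¹ • F w‖ ≤ 1 := by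
            intro w hw
            rw [norm_smul, Real.norm_of_nonneg (by norm_num)]
            have := hsmall w hw
            linarith
          have hcc : ContinuousOn (fun w => ((1 : ℝ) / 2)⁻¹ • F w) (G.B y (lam * ρ)) :=
            (hFc.mono (B_mono G hlρle)).const_smul ((1 : ℝ) / 2)⁻¹
          have h1 := ih _ hA' y (lam * ρ) hlρ _ _ hS'
            hcc hF' z hzl (by
              have : lam ^ n * (lam * ρ) = lam ^ (n + 1) * ρ := by ring
              rw [this]; exact hz2)
          rw [← smul_sub, norm_smul, Real.norm_of_nonneg (by norm_num)] at h1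
          have h2 : (G.di y z / (lam * ρ)) ^ α ≤ 2 * (G.di y z / ρ) ^ α := by
            have h3 : G.di y z / (lam * ρ) = (1 / lam) * (G.di y z / ρ) := by
              rw [div_mul_div_comm, one_mul]
            rw [h3, Real.mul_rpow (by positivity) (div_nonneg hdn hρ.le)]
            refine mul_le_mul_of_nonneg_right ?_ (Real.rpow_nonneg (div_nonneg hdn hρ.le) _)
            rw [Real.div_rpow one_pos.le hlam0.le, Real.one_rpow, div_le_iff₀ hlαp]
            linarith
          have h4 := mul_le_mul_of_nonneg_left h2 hKp.le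
          have h5 : ((1 : ℝ) / 2)⁻¹ = 2 := by norm_num
          rw [h5] at h1
          nlinarith
  intro A hA y ρ hρ u F hS hFc hF z hz
  rcases (G.di_nonneg y z).eq_or_lt with h0 | h0
  · -- `z = y`
    have hzy : z = y := by
      by_contra hne
      have h1 : G.mul (-y) z ≠ 0 := by
        intro h2
        apply hne
        have h3 := G.mul_neg_mul y z
        rw [h2, G.mul_zero] at h3
        exact h3.symm
      have h4 := G.ell_pos h1
      have h5 : G.di y z = G.ell (G.mul (-y) z) := rfl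
      rw [← h5, ← h0] at h4
      exact lt_irrefl _ h4
    rw [hzy, sub_self, norm_zero]
    exact mul_nonneg hKp.le (Real.rpow_nonneg (div_nonneg (G.di_nonneg _ _) hρ.le) _)
  · obtain ⟨n, hn⟩ := exists_pow_lt_of_lt_one (div_pos h0 hρ) hlam1
    exact key n A hA y ρ hρ u F hS hFc hF z hz (by rw [lt_div_iff₀ hρ] at hn; exact hn.le)

/-- (S3) the Hölder bound for normalised solutions with continuous gradient. -/
theorem holB (G : Carnot N m) {a b L : ℝ} (ha0 : 0 ≤ a) (ha : a < 1) (hb : 0 ≤ b) (hL : 1 ≤ L) :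
    ∃ α : ℝ, 0 < α ∧ α < 1 ∧ ∃ C : ℝ, 0 < C ∧ ∀ A : Hv m → Hv m, Nrm a b L A →
    ∀ (x : Pt N) (R : ℝ), 0 < R → ∀ (u : Pt N → ℝ) (F : Pt N → Hv m), Sol G 2 (G.B x R) A u F →
    ContinuousOn F (G.B x R) → (∀ y ∈ G.B x R, ‖F y‖ ≤ 1) →
    ∀ y ∈ G.B x (R / 2), ∀ z ∈ G.B x (R / 2), ‖F y - F z‖ ≤ C * (G.di y z / R) ^ α := by
  obtain ⟨α, hα0, hα1, K, hK, h⟩ := hol_centre G ha0 ha hb hL
  refine ⟨α, hα0, hα1, 2 * K + 4, by positivity, ?_⟩
  intro A hA x R hR u F hS hFc hF y hy z hz
  have hdn := G.di_nonneg y z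
  have hnn : 0 ≤ (G.di y z / R) ^ α := Real.rpow_nonneg (div_nonneg hdn hR.le) _
  have h2α : (2 : ℝ) ^ α ≤ 2 := by
    calc (2 : ℝ) ^ α ≤ 2 ^ (1 : ℝ) := Real.rpow_le_rpow_of_exponent_le (by norm_num) hα1.le
      _ = 2 := Real.rpow_one 2
  have hyR : y ∈ G.B x R := B_mono G (by linarith) hy
  have hzR : z ∈ G.B x R := B_mono G (by linarith) hz
  by_cases hd : G.di y z < R / 2
  · have hsub : G.B y (R / 2) ⊆ G.B x R := B_sub G (by
      have := (G.mem_B).1 hy
      linarith)
    have h1 := h A hA y (R / 2) (half_pos hR) u F (sol_mono hS hsub) (hFc.mono hsub)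
      (fun w hw => hF w (hsub hw)) z ((G.mem_B).2 hd)
    have h2 : G.di y z / (R / 2) = 2 * (G.di y z / R) := by field_simp
    rw [h2, Real.mul_rpow (by norm_num) (div_nonneg hdn hR.le)] at h1
    rw [norm_sub_rev]
    have h3 : (2 : ℝ) ^ α * (G.di y z / R) ^ α ≤ 2 * (G.di y z / R) ^ α :=
      mul_le_mul_of_nonneg_right h2α hnn
    have h4 := mul_le_mul_of_nonneg_left h3 hK.le
    linarith
  · push Not at hd
    have h1 : ‖F y - F z‖ ≤ 2 := (norm_sub_le _ _).trans (by linarith [hF z hzR, hF y hyR])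
    have h2 : (1 / 2 : ℝ) ^ α ≤ (G.di y z / R) ^ α :=
      Real.rpow_le_rpow (by norm_num) (by rw [le_div_iff₀ hR]; linarith) hα0.le
    have h3 : (1 / 2 : ℝ) ≤ (1 / 2 : ℝ) ^ α := by
      calc (1 / 2 : ℝ) = (1 / 2 : ℝ) ^ (1 : ℝ) := (Real.rpow_one _).symm
        _ ≤ _ := Real.rpow_le_rpow_of_exponent_ge (by norm_num) (by norm_num) hα1.le
    nlinarith

end Pool.Agent.CG.L
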